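import Mathlib
import Pool.Agent.H32.Witt

namespace Pool.Agent.Results.MP_f83094_an.NotInjective

open Pool.Agent.H32.Witt in
theorem result : ∃ (H : Type) (_ : Ring H) (_ : HopfAlgebra ℂ H), Algebra.FiniteType ℂ H ∧
    ∃ a : H, a ≠ 0 ∧ ∀ p : Seminorm ℂ H, (∀ x y, p (x * y) ≤ p x * p y) → p a = 0 :=
  ⟨H, inferInstance, hopf, ft, L 0, L_ne, fun p hp => kill p hp 0⟩

end Pool.Agent.Results.MP_f83094_an.NotInjective
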